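import Pool.Agent.H60.RF.Stmts

/-!
# Row PRB of the board `rf` (MP_850839): pointwise average over the projections
-/

set_option autoImplicit false

open Finset Real

namespace Pool.RF

open Pool.Agent.H49.Ent Pool.Agent.H32.Dense Pool.STK Pool.KA Pool.GP Pool.KRN

theorem prb : PRBStmt := by
  classical
  intro Ω T _ m k J N G g p hp hg W d hd ω hpω
  have hc : (0 : ℝ) < (Fintype.card (Mat J k m) : ℝ) := by exact_mod_cast Fintype.card_pos
  have hcs := cs_pos k m G
  have hlW := law_pos hp.nonneg W hpω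
  have hr : ∀ b : Mat J k m, 0 < law p (fun ω => (prj (2 ^ (J + 1)) b (fl J (d ω)), W ω))
      (prj (2 ^ (J + 1)) b (fl J (d ω)), W ω) / law p W (W ω) := fun b =>
    div_pos (law_pos hp.nonneg (fun ω => (prj (2 ^ (J + 1)) b (fl J (d ω)), W ω)) hpω) hlW
  have h1 : ∀ b : Mat J k m, Real.exp (fm p W d J k g N ω - In p W d J b ω) =
      Real.exp (fm p W d J k g N ω) *
        (law p (fun ω => (prj (2 ^ (J + 1)) b (fl J (d ω)), W ω))
          (prj (2 ^ (J + 1)) b (fl J (d ω)), W ω) / law p W (W ω)) := by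
    intro b
    unfold In
    rw [sub_neg_eq_add, Real.exp_add, Real.exp_log (hr b)]
  simp_rw [h1]
  rw [← Finset.mul_sum, ← Finset.sum_div]
  have h6 := avg_le (k := k) hp hg W hd ω
  rw [div_le_iff₀ hc] at h6
  have h8 : ∀ n ∈ range (N + 1), Nr p W (fun ω => fl (g n) (d ω)) (W ω) (fl (g n) (d ω)) *
      (cs k m G / 2 ^ (k * (J - g n))) / law p W (W ω) ≤
      cs k m G * Real.exp (-fm p W d J k g N ω) := by
    intro n hn
    have h9 : fm p W d J k g N ω ≤ fi p W d J k g n ω := by
      unfold fm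
      exact Finset.inf'_le _ hn
    have h10 : Real.exp (-fi p W d J k g n ω) ≤ Real.exp (-fm p W d J k g N ω) :=
      Real.exp_le_exp.mpr (by linarith)
    have h11 : Real.exp (-fi p W d J k g n ω) =
        Nr p W (fun ω => fl (g n) (d ω)) (W ω) (fl (g n) (d ω)) / law p W (W ω) /
          2 ^ (k * (J - g n)) := by
      unfold fi
      have hNr := Nr_pos hp W (fun ω => fl (g n) (d ω)) hpω
      rw [neg_add, neg_neg, Real.exp_add, Real.exp_log (div_pos hNr hlW), Real.exp_neg,
        mul_comm (((k * (J - g n) : ℕ)) : ℝ), Real.exp_mul, Real.exp_log (by norm_num),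
        Real.rpow_natCast, ← div_eq_mul_inv]
    calc _ = cs k m G * Real.exp (-fi p W d J k g n ω) := by
          rw [h11]
          ring
      _ ≤ _ := mul_le_mul_of_nonneg_left h10 hcs.le
  have h12 := Finset.sum_le_sum h8
  rw [Finset.sum_const, Finset.card_range, nsmul_eq_mul, ← Finset.sum_div] at h12
  push_cast at h12
  have h13 : (∑ b : Mat J k m, law p (fun ω => (prj (2 ^ (J + 1)) b (fl J (d ω)), W ω))
      (prj (2 ^ (J + 1)) b (fl J (d ω)), W ω)) / law p W (W ω) ≤
      ((N : ℝ) + 1) * (cs k m G * Real.exp (-fm p W d J k g N ω)) *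
        (Fintype.card (Mat J k m) : ℝ) := by
    refine (div_le_div_of_nonneg_right h6 hlW.le).trans ?_
    rw [mul_comm (∑ n ∈ range (N + 1), _), mul_div_assoc, mul_comm (Fintype.card (Mat J k m) : ℝ)]
    exact mul_le_mul_of_nonneg_right h12 hc.le
  calc _ ≤ Real.exp (fm p W d J k g N ω) *
        (((N : ℝ) + 1) * (cs k m G * Real.exp (-fm p W d J k g N ω)) *
          (Fintype.card (Mat J k m) : ℝ)) :=
        mul_le_mul_of_nonneg_left h13 (Real.exp_pos _).le
    _ = (Real.exp (fm p W d J k g N ω) * Real.exp (-fm p W d J k g N ω)) *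
        (cs k m G * ((N : ℝ) + 1) * (Fintype.card (Mat J k m) : ℝ)) := by ring
    _ = _ := by rw [← Real.exp_add, add_neg_cancel, Real.exp_zero, one_mul]

end Pool.RF
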